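import Mathlib

set_option autoImplicit false

/-! From a weighted count to a uniform count. -/

namespace Pool.Agent.U308.SH
open Finset

open Classical in
lemma count_one {s : ℕ} (Ω : Fin s → Finset ℕ) (i : Fin s) (Z : Finset ℕ) (η : ℝ) (_hη : 0 ≤ η) (hZ : (Z.card : ℝ) ≤ η * (Ω i).card) :
    (((Fintype.piFinset Ω).filter (fun m => m i ∈ Z)).card : ℝ) ≤ η * (Fintype.piFinset Ω).card := by
  have h1 : (Fintype.piFinset Ω).filter (fun m => m i ∈ Z) ⊆ Fintype.piFinset (Function.update Ω i Z) := by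
    intro m hm
    rw [mem_filter, Fintype.mem_piFinset] at hm
    rw [Fintype.mem_piFinset]
    intro j
    by_cases hj : j = i
    · subst hj
      rw [Function.update_self]
      exact hm.2
    · rw [Function.update_of_ne hj]
      exact hm.1 j
  have h2 : ((Fintype.piFinset (Function.update Ω i Z)).card : ℝ) = Z.card * ∏ j ∈ univ \ {i}, ((Ω j).card : ℝ) := by
    rw [Fintype.card_piFinset, Nat.cast_prod]
    have e1 : (fun j => ((Function.update Ω i Z j).card : ℝ)) = Function.update (fun j => ((Ω j).card : ℝ)) i (Z.card : ℝ) := by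
      funext j
      by_cases hj : j = i
      · subst hj
        rw [Function.update_self, Function.update_self]
      · rw [Function.update_of_ne hj, Function.update_of_ne hj]
    rw [show (∏ j, ((Function.update Ω i Z j).card : ℝ)) = ∏ j, Function.update (fun j => ((Ω j).card : ℝ)) i (Z.card : ℝ) j from
      prod_congr rfl (fun j _ => congrFun e1 j)]
    rw [prod_update_of_mem (mem_univ i)]
  have h3 : ((Fintype.piFinset Ω).card : ℝ) = (Ω i).card * ∏ j ∈ univ \ {i}, ((Ω j).card : ℝ) := by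
    rw [Fintype.card_piFinset, Nat.cast_prod, ← mul_prod_erase univ _ (mem_univ i), sdiff_singleton_eq_erase]
  have h4 : (((Fintype.piFinset Ω).filter (fun m => m i ∈ Z)).card : ℝ) ≤ ((Fintype.piFinset (Function.update Ω i Z)).card : ℝ) := by
    exact_mod_cast card_le_card h1
  have h5 : 0 ≤ ∏ j ∈ univ \ {i}, ((Ω j).card : ℝ) := prod_nonneg fun _ _ => Nat.cast_nonneg _
  rw [h3]
  rw [h2] at h4
  calc (((Fintype.piFinset Ω).filter (fun m => m i ∈ Z)).card : ℝ) ≤ Z.card * ∏ j ∈ univ \ {i}, ((Ω j).card : ℝ) := h4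
    _ ≤ (η * (Ω i).card) * ∏ j ∈ univ \ {i}, ((Ω j).card : ℝ) := mul_le_mul_of_nonneg_right hZ h5
    _ = _ := by ring

open Classical in
/-- from a weighted count to a uniform count -/
theorem count {s : ℕ} (Ω Z : Fin s → Finset ℕ) (p : Fin s → ℕ → ℝ) (bad : (Fin s → ℕ) → Prop) [DecidablePred bad] (D ν η : ℝ) (hD : 0 ≤ D) (hη : 0 ≤ η)
    (hZ : ∀ i, ((Z i).card : ℝ) ≤ η * (Ω i).card) (hp0 : ∀ i, ∀ v ∈ Ω i, 0 ≤ p i v)
    (hp : ∀ i, ∀ v ∈ Ω i, v ∉ Z i → 1 ≤ (D * (Ω i).card) * p i v)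
    (hb : ∑ m ∈ Fintype.piFinset Ω, (if bad m then ∏ i, p i (m i) else 0) ≤ ν) :
    (((Fintype.piFinset Ω).filter bad).card : ℝ) ≤ (s * η + D ^ s * ν) * (Fintype.piFinset Ω).card := by
  obtain ⟨T, hT⟩ : ∃ T : ℝ, T = ((Fintype.piFinset Ω).card : ℝ) := ⟨_, rfl⟩
  have hT0 : 0 ≤ T := by rw [hT]; exact Nat.cast_nonneg _
  have h1 : (Fintype.piFinset Ω).filter bad ⊆ (univ.biUnion fun i => (Fintype.piFinset Ω).filter (fun m => m i ∈ Z i)) ∪
      (Fintype.piFinset Ω).filter (fun m => bad m ∧ ∀ i, m i ∉ Z i) := by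
    intro m hm
    rw [mem_filter] at hm
    rw [mem_union, mem_biUnion, mem_filter]
    by_cases hc : ∃ i, m i ∈ Z i
    · obtain ⟨i, hi⟩ := hc
      exact Or.inl ⟨i, mem_univ i, mem_filter.2 ⟨hm.1, hi⟩⟩
    · push Not at hc
      exact Or.inr ⟨hm.1, hm.2, hc⟩
  have h2 : (((Fintype.piFinset Ω).filter bad).card : ℝ) ≤
      ((univ.biUnion fun i => (Fintype.piFinset Ω).filter (fun m => m i ∈ Z i)).card : ℝ) +
      (((Fintype.piFinset Ω).filter (fun m => bad m ∧ ∀ i, m i ∉ Z i)).card : ℝ) := by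
    exact_mod_cast (card_le_card h1).trans (card_union_le _ _)
  have h3 : ((univ.biUnion fun i => (Fintype.piFinset Ω).filter (fun m => m i ∈ Z i)).card : ℝ) ≤ s * (η * T) := by
    have e1 : ((univ.biUnion fun i => (Fintype.piFinset Ω).filter (fun m => m i ∈ Z i)).card : ℝ) ≤
        ∑ i, (((Fintype.piFinset Ω).filter (fun m => m i ∈ Z i)).card : ℝ) := by exact_mod_cast card_biUnion_le
    refine e1.trans ((sum_le_card_nsmul _ _ (η * T) fun i _ => ?_).trans (le_of_eq ?_))
    · rw [hT]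
      exact count_one Ω i (Z i) η hη (hZ i)
    · rw [card_univ, Fintype.card_fin, nsmul_eq_mul]
  have h4 : (((Fintype.piFinset Ω).filter (fun m => bad m ∧ ∀ i, m i ∉ Z i)).card : ℝ) ≤ (D ^ s * T) * ν := by
    have e1 : ∀ m ∈ (Fintype.piFinset Ω).filter (fun m => bad m ∧ ∀ i, m i ∉ Z i), (1 : ℝ) ≤ (D ^ s * T) * (if bad m then ∏ i, p i (m i) else 0) := by
      intro m hm
      rw [mem_filter, Fintype.mem_piFinset] at hm
      rw [if_pos hm.2.1]
      have e2 : (1 : ℝ) ≤ ∏ i, ((D * (Ω i).card) * p i (m i)) := by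
        have : ∏ _i : Fin s, (1 : ℝ) ≤ ∏ i, ((D * (Ω i).card) * p i (m i)) :=
          prod_le_prod (fun _ _ => zero_le_one) fun i _ => hp i (m i) (hm.1 i) (hm.2.2 i)
        rwa [prod_const_one] at this
      refine e2.trans (le_of_eq ?_)
      rw [prod_mul_distrib, prod_mul_distrib, prod_const, card_univ, Fintype.card_fin, hT, Fintype.card_piFinset, Nat.cast_prod]
    calc (((Fintype.piFinset Ω).filter (fun m => bad m ∧ ∀ i, m i ∉ Z i)).card : ℝ) =
        ∑ _m ∈ (Fintype.piFinset Ω).filter (fun m => bad m ∧ ∀ i, m i ∉ Z i), (1 : ℝ) := by rw [sum_const, nsmul_one]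
      _ ≤ ∑ m ∈ (Fintype.piFinset Ω).filter (fun m => bad m ∧ ∀ i, m i ∉ Z i), (D ^ s * T) * (if bad m then ∏ i, p i (m i) else 0) := sum_le_sum e1
      _ ≤ ∑ m ∈ Fintype.piFinset Ω, (D ^ s * T) * (if bad m then ∏ i, p i (m i) else 0) := by
          apply sum_le_sum_of_subset_of_nonneg (filter_subset _ _)
          intro m hm _
          rw [Fintype.mem_piFinset] at hm
          apply mul_nonneg (by positivity)
          split_ifs
          · exact prod_nonneg fun i _ => hp0 i (m i) (hm i)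
          · exact le_rfl
      _ = (D ^ s * T) * ∑ m ∈ Fintype.piFinset Ω, (if bad m then ∏ i, p i (m i) else 0) := by rw [mul_sum]
      _ ≤ _ := mul_le_mul_of_nonneg_left hb (by positivity)
  rw [← hT]
  calc (((Fintype.piFinset Ω).filter bad).card : ℝ) ≤ s * (η * T) + (D ^ s * T) * ν := h2.trans (add_le_add h3 h4)
    _ = _ := by ring

end Pool.Agent.U308.SH
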